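import Pool.Agent.H48.RG.Targets

/-! Row D_CF0 of reg_modules: cutoff functions exist. -/

namespace Pool.Agent.H76.RG

open MeasureTheory Metric Set Filter Topology Pool.Agent.H48.RG Pool.Agent.H87.SN
open scoped ContDiff RealInnerProductSpace ENNReal

theorem pf_CF0 : T_CF0 := by
  intro n
  let f : ContDiffBump (0 : E n) := ⟨13 / 16, 7 / 8, by norm_num, by norm_num⟩
  have hsm : ContDiff ℝ ∞ (f : E n → ℝ) := f.contDiff
  have hc : Continuous (fderiv ℝ (f : E n → ℝ)) := hsm.continuous_fderiv (by simp)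
  have hs : HasCompactSupport (fderiv ℝ (f : E n → ℝ)) := f.hasCompactSupport.fderiv ℝ
  obtain ⟨B, hB⟩ := hs.exists_bound_of_continuous hc
  refine ⟨f, B, (norm_nonneg _).trans (hB 0), hsm, fun x => ⟨f.nonneg, f.le_one⟩, ?_, ?_, hB⟩
  · intro x hx
    exact f.one_of_mem_closedBall (ball_subset_closedBall hx)
  · rw [f.tsupport_eq]

end Pool.Agent.H76.RG
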